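import Pool.Agent.H90.WC.Defs

/-!
Boundary bumping (module T1 of the wandering continuum theorem, problem MP_90715c_gt).
-/

open Matrix Set Filter Topology

namespace Pool.Agent.H90.WC

section general

variable {Y : Type*} [TopologicalSpace Y]

theorem clopen_sep_one [CompactSpace Y] [T2Space Y] {Q : Set Y} (hQ : IsClosed Q) {p : Y}
    (h : ∀ q ∈ Q, q ∉ connectedComponent p) : ∃ Z : Set Y, IsClopen Z ∧ p ∈ Z ∧ Disjoint Z Q := by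
  refine hQ.isCompact.induction_on (p := fun s => ∃ Z : Set Y, IsClopen Z ∧ p ∈ Z ∧ Disjoint Z s)
    ⟨univ, isClopen_univ, mem_univ _, disjoint_empty _⟩ ?_ ?_ ?_
  · rintro s t hst ⟨Z, h1, h2, h3⟩
    exact ⟨Z, h1, h2, h3.mono_right hst⟩
  · rintro s t ⟨Z, h1, h2, h3⟩ ⟨Z', h1', h2', h3'⟩
    exact ⟨Z ∩ Z', h1.inter h1', ⟨h2, h2'⟩, disjoint_union_right.mpr
      ⟨h3.mono_left inter_subset_left, h3'.mono_left inter_subset_right⟩⟩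
  · intro q hq
    have hq' := h q hq
    rw [connectedComponent_eq_iInter_isClopen, mem_iInter, not_forall] at hq'
    obtain ⟨⟨Z, hZ, hpZ⟩, hqZ⟩ := hq'
    exact ⟨Zᶜ, mem_nhdsWithin_of_mem_nhds (hZ.compl.isOpen.mem_nhds hqZ), Z, hZ, hpZ,
      disjoint_compl_right⟩

theorem clopen_sep [CompactSpace Y] [T2Space Y] {P Q : Set Y} (hP : IsClosed P)
    (hQ : IsClosed Q) (h : ∀ p ∈ P, ∀ q ∈ Q, q ∉ connectedComponent p) :
    ∃ Z : Set Y, IsClopen Z ∧ P ⊆ Z ∧ Disjoint Z Q := by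
  refine hP.isCompact.induction_on (p := fun s => ∃ Z : Set Y, IsClopen Z ∧ s ⊆ Z ∧ Disjoint Z Q)
    ⟨∅, isClopen_empty, Subset.rfl, empty_disjoint _⟩ ?_ ?_ ?_
  · rintro s t hst ⟨Z, h1, h2, h3⟩
    exact ⟨Z, h1, hst.trans h2, h3⟩
  · rintro s t ⟨Z, h1, h2, h3⟩ ⟨Z', h1', h2', h3'⟩
    exact ⟨Z ∪ Z', h1.union h1', union_subset_union h2 h2', disjoint_union_left.mpr ⟨h3, h3'⟩⟩
  · intro p hp
    obtain ⟨Z, h1, h2, h3⟩ := clopen_sep_one hQ (h p hp)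
    exact ⟨Z, mem_nhdsWithin_of_mem_nhds (h1.isOpen.mem_nhds h2), Z, h1, Subset.rfl, h3⟩

theorem cut' [T2Space Y] {X : Set Y} (hX : IsCompact X) {P Q : Set Y} (hP : IsClosed P)
    (hQ : IsClosed Q) :
    (∃ κ ⊆ X, IsCompact κ ∧ IsPreconnected κ ∧ (κ ∩ P).Nonempty ∧ (κ ∩ Q).Nonempty) ∨
    ∃ X1 X2 : Set Y, IsCompact X1 ∧ IsCompact X2 ∧ X1 ∪ X2 = X ∧ Disjoint X1 X2 ∧
      X ∩ P ⊆ X1 ∧ X ∩ Q ⊆ X2 := by
  have : CompactSpace X := isCompact_iff_compactSpace.mp hX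
  by_cases h : ∀ p ∈ ((↑) : X → Y) ⁻¹' P, ∀ q ∈ ((↑) : X → Y) ⁻¹' Q, q ∉ connectedComponent p
  · obtain ⟨Z, h1, h2, h3⟩ := clopen_sep (hP.preimage continuous_subtype_val)
      (hQ.preimage continuous_subtype_val) h
    refine Or.inr ⟨(↑) '' Z, (↑) '' Zᶜ, h1.isClosed.isCompact.image continuous_subtype_val,
      h1.compl.isClosed.isCompact.image continuous_subtype_val, ?_, ?_, ?_, ?_⟩
    · rw [← image_union, union_compl_self, image_univ, Subtype.range_coe]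
    · exact disjoint_image_of_injective Subtype.val_injective disjoint_compl_right
    · rintro z ⟨hz, hzP⟩
      exact ⟨⟨z, hz⟩, h2 hzP, rfl⟩
    · rintro z ⟨hz, hzQ⟩
      exact ⟨⟨z, hz⟩, fun hzZ => disjoint_left.mp h3 hzZ hzQ, rfl⟩
  · push Not at h
    obtain ⟨p, hp, q, hq, hpq⟩ := h
    refine Or.inl ⟨(↑) '' connectedComponent p, ?_, isClosed_connectedComponent.isCompact.image
      continuous_subtype_val, isPreconnected_connectedComponent.image _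
      continuous_subtype_val.continuousOn, ⟨p, ⟨p, mem_connectedComponent, rfl⟩, hp⟩,
      ⟨q, ⟨q, hpq, rfl⟩, hq⟩⟩
    rintro _ ⟨z, -, rfl⟩
    exact z.2

/-- Boundary bumping. -/
theorem bumping [T2Space Y] {κ W P Q : Set Y} (hc : IsCompact κ) (hp : IsPreconnected κ)
    (hW : IsClosed W) (hP : IsClosed P) (hQ : IsClosed Q) (hcov : κ ⊆ W ∪ (P ∪ Q))
    (hdis : ∀ z ∈ κ, z ∈ P → z ∉ Q) (hPn : (κ ∩ P).Nonempty) (hQn : (κ ∩ Q).Nonempty) :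
    ∃ κ' ⊆ κ ∩ W, IsCompact κ' ∧ IsPreconnected κ' ∧ (κ' ∩ P).Nonempty ∧ (κ' ∩ Q).Nonempty := by
  rcases cut' (hc.inter_right hW) hP hQ with h | ⟨X1, X2, hX1, hX2, hX12, hXd, hPX, hQX⟩
  · exact h
  · exfalso
    have hF1 : IsClosed (X1 ∪ (κ ∩ P)) := hX1.isClosed.union (hc.inter_right hP).isClosed
    have hF2 : IsClosed (X2 ∪ (κ ∩ Q)) := hX2.isClosed.union (hc.inter_right hQ).isClosed
    have hcov' : κ ⊆ (X1 ∪ (κ ∩ P)) ∪ (X2 ∪ (κ ∩ Q)) := by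
      intro z hz
      rcases hcov hz with h | h | h
      · have : z ∈ X1 ∪ X2 := by rw [hX12]; exact ⟨hz, h⟩
        rcases this with h' | h'
        · exact Or.inl (Or.inl h')
        · exact Or.inr (Or.inl h')
      · exact Or.inl (Or.inr ⟨hz, h⟩)
      · exact Or.inr (Or.inr ⟨hz, h⟩)
    have hX1k : ∀ z ∈ X1, z ∈ κ ∩ W := fun z hz => by
      rw [← hX12]; exact Or.inl hz
    have hX2k : ∀ z ∈ X2, z ∈ κ ∩ W := fun z hz => by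
      rw [← hX12]; exact Or.inr hz
    obtain ⟨u, hu, hu'⟩ := hPn
    obtain ⟨v, hv, hv'⟩ := hQn
    obtain ⟨z, -, hz1, hz2⟩ := isPreconnected_closed_iff.mp hp _ _ hF1 hF2 hcov'
      ⟨u, hu, Or.inr ⟨hu, hu'⟩⟩ ⟨v, hv, Or.inr ⟨hv, hv'⟩⟩
    rcases hz1 with hz1 | hz1 <;> rcases hz2 with hz2 | hz2
    · exact disjoint_left.mp hXd hz1 hz2
    · exact disjoint_left.mp hXd hz1 (hQX ⟨hX1k z hz1, hz2.2⟩)
    · exact disjoint_left.mp hXd (hPX ⟨hX2k z hz2, hz1.2⟩) hz2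
    · exact hdis z hz1.1 hz1.2 hz2.2

end general

theorem cut {X : Set ℂ} (hX : IsCompact X) {P Q : Set ℂ} (hP : IsClosed P) (hQ : IsClosed Q) :
    (∃ κ ⊆ X, IsCompact κ ∧ IsPreconnected κ ∧ (κ ∩ P).Nonempty ∧ (κ ∩ Q).Nonempty) ∨
    ∃ X1 X2 : Set ℂ, IsCompact X1 ∧ IsCompact X2 ∧ X1 ∪ X2 = X ∧ Disjoint X1 X2 ∧
      X ∩ P ⊆ X1 ∧ X ∩ Q ⊆ X2 :=
  cut' hX hP hQ

theorem crossing_of_connected {κ : Set ℂ} (hc : IsCompact κ) (hp : IsPreconnected κ) {T ε : ℝ}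
    (hT : 0 < T) (hl : ∃ z ∈ κ, z.re ≤ -T) (hr : ∃ z ∈ κ, T ≤ z.re)
    (hi : ∀ z ∈ κ, |z.re| ≤ T → |z.im| ≤ ε) : ∃ κ' ⊆ κ, Crossing T ε κ' := by
  have cre : Continuous (fun z : ℂ => z.re) := Complex.continuous_re
  have hcov : κ ⊆ {z : ℂ | |z.re| ≤ T} ∪ ({z : ℂ | z.re ≤ -T} ∪ {z : ℂ | T ≤ z.re}) := by
    intro z _
    rcases le_total z.re (-T) with h | h
    · exact Or.inr (Or.inl h)
    · rcases le_total z.re T with h' | h'
      · exact Or.inl (abs_le.mpr ⟨h, h'⟩)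
      · exact Or.inr (Or.inr h')
  have hdis : ∀ z ∈ κ, z ∈ {z : ℂ | z.re ≤ -T} → z ∉ {z : ℂ | T ≤ z.re} := by
    intro z _ hz hz'
    have e1 : z.re ≤ -T := hz
    have e2 : T ≤ z.re := hz'
    linarith
  have hPn : (κ ∩ {z : ℂ | z.re ≤ -T}).Nonempty := by
    obtain ⟨z, hz, hz'⟩ := hl
    exact ⟨z, hz, hz'⟩
  have hQn : (κ ∩ {z : ℂ | T ≤ z.re}).Nonempty := by
    obtain ⟨z, hz, hz'⟩ := hr
    exact ⟨z, hz, hz'⟩
  obtain ⟨κ', hsub, h1, h2, ⟨u, hu, hu'⟩, ⟨v, hv, hv'⟩⟩ := bumping hc hp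
    (isClosed_le cre.abs continuous_const) (isClosed_le cre continuous_const)
    (isClosed_le continuous_const cre) hcov hdis hPn hQn
  refine ⟨κ', fun z hz => (hsub hz).1, h1, h2, fun z hz => (hsub hz).2,
    fun z hz => hi z (hsub hz).1 (hsub hz).2, ⟨u, hu, ?_⟩, ⟨v, hv, ?_⟩⟩
  · exact le_antisymm hu' (abs_le.mp (hsub hu).2).1
  · exact le_antisymm (abs_le.mp (hsub hv).2).2 hv'

theorem bump {κ : Set ℂ} (hc : IsCompact κ) (hp : IsPreconnected κ) {x : ℂ} (hx : x ∈ κ) {r : ℝ}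
    (hr : 0 < r) (hy : ∃ y ∈ κ, r ≤ dist x y) :
    ∃ κ' ⊆ κ, IsCompact κ' ∧ IsPreconnected κ' ∧ x ∈ κ' ∧ (∀ z ∈ κ', dist x z ≤ r) ∧
      ∃ y ∈ κ', dist x y = r := by
  have cd : Continuous (fun z : ℂ => dist x z) := by fun_prop
  have hcov : κ ⊆ {z : ℂ | dist x z ≤ r} ∪ ({x} ∪ {z : ℂ | r ≤ dist x z}) := by
    intro z _
    rcases le_total (dist x z) r with h | h
    · exact Or.inl h
    · exact Or.inr (Or.inr h)
  have hdis : ∀ z ∈ κ, z ∈ ({x} : Set ℂ) → z ∉ {z : ℂ | r ≤ dist x z} := by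
    intro z _ hz hz'
    have e1 : z = x := hz
    have e2 : r ≤ dist x z := hz'
    rw [e1, dist_self] at e2
    linarith
  have hQn : (κ ∩ {z : ℂ | r ≤ dist x z}).Nonempty := by
    obtain ⟨y, hy, hy'⟩ := hy
    exact ⟨y, hy, hy'⟩
  obtain ⟨κ', hsub, h1, h2, ⟨u, hu, hu'⟩, ⟨v, hv, hv'⟩⟩ := bumping hc hp
    (isClosed_le cd continuous_const) isClosed_singleton
    (isClosed_le continuous_const cd) hcov hdis ⟨x, hx, rfl⟩ hQn
  have hux : u = x := hu'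
  subst hux
  exact ⟨κ', fun z hz => (hsub hz).1, h1, h2, hu, fun z hz => (hsub hz).2,
    ⟨v, hv, le_antisymm (hsub hv).2 hv'⟩⟩

end Pool.Agent.H90.WC
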