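import Pool.Agent.H90.WC.Defs

/-!
Two translates of a continuum in a strip are linked (module T3 of the wandering continuum
theorem, problem MP_90715c_gt).
-/

open Matrix Set Filter Topology

namespace Pool.Agent.H90.WC

/-- A closed box in the plane. -/
def sbox (x1 x2 y1 y2 : ℝ) : Set ℂ :=
  {z | x1 ≤ z.re ∧ z.re ≤ x2 ∧ y1 ≤ z.im ∧ z.im ≤ y2}

theorem sbox_eq (x1 x2 y1 y2 : ℝ) : sbox x1 x2 y1 y2 = Icc x1 x2 ×ℂ Icc y1 y2 := by
  ext z
  constructor
  · rintro ⟨h1, h2, h3, h4⟩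
    exact Complex.mem_reProdIm.mpr ⟨⟨h1, h2⟩, ⟨h3, h4⟩⟩
  · intro h
    obtain ⟨⟨h1, h2⟩, ⟨h3, h4⟩⟩ := Complex.mem_reProdIm.mp h
    exact ⟨h1, h2, h3, h4⟩

theorem sbox_isCompact (x1 x2 y1 y2 : ℝ) : IsCompact (sbox x1 x2 y1 y2) := by
  rw [sbox_eq]
  exact isCompact_Icc.reProdIm isCompact_Icc

theorem sbox_convex (x1 x2 y1 y2 : ℝ) : Convex ℝ (sbox x1 x2 y1 y2) := by
  have h1 : Convex ℝ {z : ℂ | x1 ≤ z.re} := convex_halfSpace_re_ge x1
  have h2 : Convex ℝ {z : ℂ | z.re ≤ x2} := convex_halfSpace_re_le x2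
  have h3 : Convex ℝ {z : ℂ | y1 ≤ z.im} := convex_halfSpace_im_ge y1
  have h4 : Convex ℝ {z : ℂ | z.im ≤ y2} := convex_halfSpace_im_le y2
  exact h1.inter (h2.inter (h3.inter h4))

theorem sbox_isPreconnected (x1 x2 y1 y2 : ℝ) : IsPreconnected (sbox x1 x2 y1 y2) :=
  (sbox_convex x1 x2 y1 y2).isPreconnected

/-- The statement of `cross_continua`. -/
def CrossStatement : Prop := ∀ {A B : Set ℂ}, IsCompact A → IsPreconnected A →
  IsCompact B → IsPreconnected B → ∀ {a b : ℝ}, 0 < a → 0 < b →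
  (∀ z ∈ A, |z.im| < b) → (∀ z ∈ B, |z.re| < a) →
  (∃ z ∈ A, z.re ≤ -a) → (∃ z ∈ A, a ≤ z.re) →
  (∃ z ∈ B, z.im ≤ -b) → (∃ z ∈ B, b ≤ z.im) → (A ∩ B).Nonempty

/-- The statement of `cut`. -/
def CutStatement : Prop := ∀ {X : Set ℂ}, IsCompact X → ∀ {P Q : Set ℂ}, IsClosed P →
  IsClosed Q →
    (∃ κ ⊆ X, IsCompact κ ∧ IsPreconnected κ ∧ (κ ∩ P).Nonempty ∧ (κ ∩ Q).Nonempty) ∨
    ∃ X1 X2 : Set ℂ, IsCompact X1 ∧ IsCompact X2 ∧ X1 ∪ X2 = X ∧ Disjoint X1 X2 ∧
      X ∩ P ⊆ X1 ∧ X ∩ Q ⊆ X2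

/-- Linked continua below a horizontal line. -/
theorem linked_translate (cross : CrossStatement) {J : Set ℂ} (hJ : IsCompact J)
    (hJp : IsPreconnected J) {c l : ℝ} (hl : 0 < l) (hc : ∀ z ∈ J, z.im ≤ c) {p q : ℂ}
    (hp : p ∈ J) (hq : q ∈ J) (hpc : p.im = c) (hqc : q.im = c) (hpq : p.re + l < q.re) :
    ∃ z ∈ J, z + (l : ℂ) ∈ J := by
  obtain ⟨R0, hR0⟩ := hJ.isBounded.exists_norm_le
  obtain ⟨R, hR, hR0', hcR⟩ : ∃ R : ℝ, 0 < R ∧ R0 ≤ R ∧ |c| ≤ R :=
    ⟨max (max R0 |c|) 1, lt_of_lt_of_le one_pos (le_max_right _ _),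
      le_trans (le_max_left _ _) (le_max_left _ _),
      le_trans (le_max_right _ _) (le_max_left _ _)⟩
  have hre : ∀ z ∈ J, -R ≤ z.re ∧ z.re ≤ R := fun z hz =>
    abs_le.mp ((Complex.abs_re_le_norm z).trans ((hR0 z hz).trans hR0'))
  have him : ∀ z ∈ J, -R ≤ z.im ∧ z.im ≤ R := fun z hz =>
    abs_le.mp ((Complex.abs_im_le_norm z).trans ((hR0 z hz).trans hR0'))
  have hcR' := abs_le.mp hcR
  have hpre := hre p hp
  have hqre := hre q hq
  set Jl : Set ℂ := (fun z : ℂ => z + (l : ℂ)) '' J with hJl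
  have hcont : Continuous (fun z : ℂ => z + (l : ℂ)) := by fun_prop
  have hJlc : IsCompact Jl := hJ.image hcont
  have hJlp : IsPreconnected Jl := hJp.image _ hcont.continuousOn
  have hJlmem : ∀ z ∈ Jl, ∃ w ∈ J, w.re + l = z.re ∧ w.im = z.im ∧ w + (l : ℂ) = z := by
    rintro z ⟨w, hw, rfl⟩
    exact ⟨w, hw, by simp, by simp, rfl⟩
  set A0 : ℝ := R + l + 2 with hA0
  set H : ℝ := R + 2 with hH
  set H' : ℝ := R + 1 with hH'
  -- the corners
  have hpA : p ∈ sbox p.re p.re c H := by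
    refine ⟨le_rfl, le_rfl, by rw [hpc], by rw [hpc]; linarith [hcR'.2]⟩
  have hqA : q ∈ sbox q.re q.re c H := by
    refine ⟨le_rfl, le_rfl, by rw [hqc], by rw [hqc]; linarith [hcR'.2]⟩
  set A : Set ℂ := J ∪ (sbox p.re p.re c H ∪ sbox (-A0) p.re H H) ∪
    (sbox q.re q.re c H ∪ sbox q.re A0 H H) with hA
  set B : Set ℂ := Jl ∪ sbox (p.re + l) (p.re + l) c (H + 1) ∪
    ((sbox (q.re + l) (q.re + l) c H' ∪ sbox (q.re + l) (A0 - 1) H' H') ∪
      sbox (A0 - 1) (A0 - 1) (-(H + 1)) H') with hB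
  have hAc : IsCompact A :=
    (hJ.union ((sbox_isCompact _ _ _ _).union (sbox_isCompact _ _ _ _))).union
      ((sbox_isCompact _ _ _ _).union (sbox_isCompact _ _ _ _))
  have hBc : IsCompact B :=
    (hJlc.union (sbox_isCompact _ _ _ _)).union
      (((sbox_isCompact _ _ _ _).union (sbox_isCompact _ _ _ _)).union (sbox_isCompact _ _ _ _))
  have hAp : IsPreconnected A := by
    have h1 : IsPreconnected (sbox p.re p.re c H ∪ sbox (-A0) p.re H H) := by
      refine IsPreconnected.union (⟨p.re, H⟩ : ℂ) ?_ ?_ (sbox_isPreconnected _ _ _ _)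
        (sbox_isPreconnected _ _ _ _)
      · exact ⟨le_rfl, le_rfl, by simp only; linarith [hcR'.2], le_rfl⟩
      · exact ⟨by simp only; linarith [hpre.1], le_rfl, le_rfl, le_rfl⟩
    have h2 : IsPreconnected (sbox q.re q.re c H ∪ sbox q.re A0 H H) := by
      refine IsPreconnected.union (⟨q.re, H⟩ : ℂ) ?_ ?_ (sbox_isPreconnected _ _ _ _)
        (sbox_isPreconnected _ _ _ _)
      · exact ⟨le_rfl, le_rfl, by simp only; linarith [hcR'.2], le_rfl⟩
      · exact ⟨le_rfl, by simp only; linarith [hqre.2], le_rfl, le_rfl⟩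
    have h3 : IsPreconnected (J ∪ (sbox p.re p.re c H ∪ sbox (-A0) p.re H H)) :=
      IsPreconnected.union p hp (Or.inl hpA) hJp h1
    exact IsPreconnected.union q (Or.inl hq) (Or.inl hqA) h3 h2
  have hBp : IsPreconnected B := by
    have h1 : IsPreconnected (sbox (q.re + l) (q.re + l) c H' ∪
        sbox (q.re + l) (A0 - 1) H' H') := by
      refine IsPreconnected.union (⟨q.re + l, H'⟩ : ℂ) ?_ ?_ (sbox_isPreconnected _ _ _ _)
        (sbox_isPreconnected _ _ _ _)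
      · exact ⟨le_rfl, le_rfl, by simp only; linarith [hcR'.2], le_rfl⟩
      · exact ⟨le_rfl, by simp only; linarith [hqre.2], le_rfl, le_rfl⟩
    have h2 : IsPreconnected ((sbox (q.re + l) (q.re + l) c H' ∪
        sbox (q.re + l) (A0 - 1) H' H') ∪ sbox (A0 - 1) (A0 - 1) (-(H + 1)) H') := by
      refine IsPreconnected.union (⟨A0 - 1, H'⟩ : ℂ) (Or.inr ?_) ?_ h1
        (sbox_isPreconnected _ _ _ _)
      · exact ⟨by simp only; linarith [hqre.2], le_rfl, le_rfl, le_rfl⟩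
      · exact ⟨le_rfl, le_rfl, by simp only; linarith, le_rfl⟩
    have h3 : IsPreconnected (Jl ∪ sbox (p.re + l) (p.re + l) c (H + 1)) := by
      refine IsPreconnected.union (p + (l : ℂ)) ⟨p, hp, rfl⟩ ?_ hJlp
        (sbox_isPreconnected _ _ _ _)
      refine ⟨by simp, by simp, by simp [hpc], ?_⟩
      simp only [Complex.add_im, Complex.ofReal_im, add_zero, hpc]
      linarith [hcR'.2]
    refine IsPreconnected.union (q + (l : ℂ)) (Or.inl ⟨q, hq, rfl⟩) (Or.inl (Or.inl ?_)) h3 h2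
    refine ⟨by simp, by simp, by simp [hqc], ?_⟩
    simp only [Complex.add_im, Complex.ofReal_im, add_zero, hqc]
    linarith [hcR'.2]
  have hAb : ∀ z ∈ A, |z.im| < H + 1 := by
    intro z hz
    rw [abs_lt]
    rcases hz with (hz | hz | hz) | hz | hz
    · have := him z hz
      constructor <;> linarith
    all_goals
      obtain ⟨h1, h2, h3, h4⟩ := hz
      constructor <;> linarith
  have hBa : ∀ z ∈ B, |z.re| < A0 := by
    intro z hz
    rw [abs_lt]
    rcases hz with (hz | hz) | (hz | hz) | hz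
    · obtain ⟨w, hw, hw1, hw2, -⟩ := hJlmem z hz
      have := hre w hw
      constructor <;> linarith
    all_goals
      obtain ⟨h1, h2, h3, h4⟩ := hz
      constructor <;> linarith
  obtain ⟨z, hzA, hzB⟩ := cross hAc hAp hBc hBp (a := A0) (b := H + 1) (by linarith) (by linarith)
    hAb hBa
    ⟨(⟨-A0, H⟩ : ℂ), Or.inl (Or.inr (Or.inr
      ⟨le_rfl, by simp only; linarith, le_rfl, le_rfl⟩)), le_rfl⟩
    ⟨(⟨A0, H⟩ : ℂ), Or.inr (Or.inr
      ⟨by simp only; linarith, le_rfl, le_rfl, le_rfl⟩), le_rfl⟩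
    ⟨(⟨A0 - 1, -(H + 1)⟩ : ℂ), Or.inr (Or.inr
      ⟨le_rfl, le_rfl, le_rfl, by simp only; linarith⟩), le_rfl⟩
    ⟨(⟨p.re + l, H + 1⟩ : ℂ), Or.inl (Or.inr
      ⟨le_rfl, le_rfl, by simp only; linarith, le_rfl⟩), le_rfl⟩
  -- the analysis of the common point
  have key : ∀ w ∈ J, ∀ v ∈ J, w + (l : ℂ) = v → ∃ z ∈ J, z + (l : ℂ) ∈ J :=
    fun w hw v hv h => ⟨w, hw, h ▸ hv⟩
  rcases hzA with (hzA | hzA | hzA) | hzA | hzA
  · -- `z ∈ J`
    have hzc := hc z hzA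
    have hzre := hre z hzA
    rcases hzB with (hzB | hzB) | (hzB | hzB) | hzB
    · obtain ⟨w, hw, -, -, hw3⟩ := hJlmem z hzB
      exact key w hw z hzA hw3
    · obtain ⟨h1, h2, h3, h4⟩ := hzB
      refine key p hp z hzA (Complex.ext ?_ ?_)
      · simp only [Complex.add_re, Complex.ofReal_re]; linarith
      · simp only [Complex.add_im, Complex.ofReal_im, add_zero]; linarith
    · obtain ⟨h1, h2, h3, h4⟩ := hzB
      refine key q hq z hzA (Complex.ext ?_ ?_)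
      · simp only [Complex.add_re, Complex.ofReal_re]; linarith
      · simp only [Complex.add_im, Complex.ofReal_im, add_zero]; linarith
    all_goals
      obtain ⟨h1, h2, h3, h4⟩ := hzB
      exfalso
      linarith
  · obtain ⟨g1, g2, g3, g4⟩ := hzA
    rcases hzB with (hzB | hzB) | (hzB | hzB) | hzB
    · obtain ⟨w, hw, hw1, hw2, hw3⟩ := hJlmem z hzB
      have := hc w hw
      refine key w hw p hp ?_
      rw [hw3]
      exact Complex.ext (by linarith) (by linarith)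
    all_goals
      obtain ⟨h1, h2, h3, h4⟩ := hzB
      exfalso
      linarith
  · obtain ⟨g1, g2, g3, g4⟩ := hzA
    rcases hzB with (hzB | hzB) | (hzB | hzB) | hzB
    · obtain ⟨w, hw, hw1, hw2, hw3⟩ := hJlmem z hzB
      have := hc w hw
      exfalso
      linarith
    all_goals
      obtain ⟨h1, h2, h3, h4⟩ := hzB
      exfalso
      linarith
  · obtain ⟨g1, g2, g3, g4⟩ := hzA
    rcases hzB with (hzB | hzB) | (hzB | hzB) | hzB
    · obtain ⟨w, hw, hw1, hw2, hw3⟩ := hJlmem z hzB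
      have := hc w hw
      refine key w hw q hq ?_
      rw [hw3]
      exact Complex.ext (by linarith) (by linarith)
    all_goals
      obtain ⟨h1, h2, h3, h4⟩ := hzB
      exfalso
      linarith
  · obtain ⟨g1, g2, g3, g4⟩ := hzA
    rcases hzB with (hzB | hzB) | (hzB | hzB) | hzB
    · obtain ⟨w, hw, hw1, hw2, hw3⟩ := hJlmem z hzB
      have := hc w hw
      exfalso
      linarith
    all_goals
      obtain ⟨h1, h2, h3, h4⟩ := hzB
      exfalso
      linarith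

theorem strip_link_of (cross : CrossStatement) (cut : CutStatement)
    {κ : Set ℂ} (hc : IsCompact κ) (hp : IsPreconnected κ) {M l : ℝ}
    (hl : 0 < l) (hM : l < M) (h1 : ∀ z ∈ κ, |z.re| ≤ M → z.im ≠ Real.pi / 2)
    (h2 : ∀ z ∈ κ, z.re = 0 → z.im < Real.pi / 2)
    (h3 : ∃ z ∈ κ, Real.pi / 2 < z.im ∧ z.re < 0)
    (h4 : ∃ z ∈ κ, Real.pi / 2 < z.im ∧ 0 < z.re) : ∃ z ∈ κ, z + (l : ℂ) ∈ κ := by
  set c : ℝ := Real.pi / 2 with hcdef
  have cre : Continuous (fun z : ℂ => z.re) := Complex.continuous_re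
  have cim : Continuous (fun z : ℂ => z.im) := Complex.continuous_im
  set P : Set ℂ := {z | c ≤ z.im ∧ z.re ≤ 0} with hP
  set Q : Set ℂ := {z | c ≤ z.im ∧ 0 ≤ z.re} with hQ
  have hPc : IsClosed P :=
    (isClosed_le continuous_const cim).inter (isClosed_le cre continuous_const)
  have hQc : IsClosed Q :=
    (isClosed_le continuous_const cim).inter (isClosed_le continuous_const cre)
  have hLc : IsCompact (κ ∩ {z | z.im ≤ c}) :=
    hc.inter_right (isClosed_le cim continuous_const)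
  rcases cut hLc hPc hQc with ⟨J, hJL, hJ, hJp, ⟨p, hpJ, hpP⟩, ⟨q, hqJ, hqQ⟩⟩ |
    ⟨X1, X2, hX1, hX2, hX12, hdis, hPX, hQX⟩
  · have hJk : J ⊆ κ := fun z hz => (hJL hz).1
    have hJc : ∀ z ∈ J, z.im ≤ c := fun z hz => (hJL hz).2
    have hpc : p.im = c := le_antisymm (hJc p hpJ) hpP.1
    have hqc : q.im = c := le_antisymm (hJc q hqJ) hqQ.1
    have hpM : p.re < -M := by
      by_contra hcon
      refine h1 p (hJk hpJ) (abs_le.mpr ⟨not_lt.mp hcon, ?_⟩) hpc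
      have := hpP.2
      linarith
    have hqM : M < q.re := by
      by_contra hcon
      refine h1 q (hJk hqJ) (abs_le.mpr ⟨?_, not_lt.mp hcon⟩) hqc
      have := hqQ.2
      linarith
    obtain ⟨z, hz, hz'⟩ := linked_translate cross hJ hJp hl hJc hpJ hqJ hpc hqc (by linarith)
    exact ⟨z, hJk hz, hJk hz'⟩
  · exfalso
    obtain ⟨u, hu, hu1, hu2⟩ := h3
    obtain ⟨v, hv, hv1, hv2⟩ := h4
    have hF1 : IsClosed (X1 ∪ (κ ∩ P)) := hX1.isClosed.union (hc.inter_right hPc).isClosed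
    have hF2 : IsClosed (X2 ∪ (κ ∩ Q)) := hX2.isClosed.union (hc.inter_right hQc).isClosed
    have hcov : κ ⊆ (X1 ∪ (κ ∩ P)) ∪ (X2 ∪ (κ ∩ Q)) := by
      intro z hz
      rcases le_total z.im c with h | h
      · have : z ∈ X1 ∪ X2 := by rw [hX12]; exact ⟨hz, h⟩
        rcases this with h' | h'
        · exact Or.inl (Or.inl h')
        · exact Or.inr (Or.inl h')
      · rcases le_total z.re 0 with h' | h'
        · exact Or.inl (Or.inr ⟨hz, h, h'⟩)
        · exact Or.inr (Or.inr ⟨hz, h, h'⟩)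
    have hX1k : ∀ z ∈ X1, z ∈ κ ∧ z.im ≤ c := fun z hz => by
      have : z ∈ X1 ∪ X2 := Or.inl hz
      rw [hX12] at this
      exact this
    have hX2k : ∀ z ∈ X2, z ∈ κ ∧ z.im ≤ c := fun z hz => by
      have : z ∈ X1 ∪ X2 := Or.inr hz
      rw [hX12] at this
      exact this
    have hdisj : ∀ z, z ∈ X1 ∪ (κ ∩ P) → z ∈ X2 ∪ (κ ∩ Q) → False := by
      rintro z (hz1 | hz1) (hz2 | hz2)
      · exact Set.disjoint_left.mp hdis hz1 hz2
      · exact Set.disjoint_left.mp hdis hz1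
          (hQX ⟨hX1k z hz1, hz2.2⟩)
      · exact Set.disjoint_left.mp hdis (hPX ⟨hX2k z hz2, hz1.2⟩) hz2
      · have e : z.re = 0 := le_antisymm hz1.2.2 hz2.2.2
        have := h2 z hz1.1 e
        exact absurd hz1.2.1 (not_le.mpr this)
    obtain ⟨z, -, hz1, hz2⟩ := isPreconnected_closed_iff.mp hp _ _ hF1 hF2 hcov
      ⟨u, hu, Or.inr ⟨hu, hu1.le, hu2.le⟩⟩ ⟨v, hv, Or.inr ⟨hv, hv1.le, hv2.le⟩⟩
    exact hdisj z hz1 hz2

end Pool.Agent.H90.WC
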