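import Pool.Agent.H13.WC.StripLink
import Pool.Agent.H13.WC.Cut
import Pool.Agent.H20.WC.CrossC

/-!
The closed form of `strip_link` (module T3 of the wandering continuum theorem, problem
MP_90715c_gt).
-/

open Matrix Set Filter Topology

namespace Pool.Agent.H90.WC

theorem strip_link {κ : Set ℂ} (hc : IsCompact κ) (hp : IsPreconnected κ) {M l : ℝ}
    (hl : 0 < l) (hM : l < M) (h1 : ∀ z ∈ κ, |z.re| ≤ M → z.im ≠ Real.pi / 2)
    (h2 : ∀ z ∈ κ, z.re = 0 → z.im < Real.pi / 2)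
    (h3 : ∃ z ∈ κ, Real.pi / 2 < z.im ∧ z.re < 0)
    (h4 : ∃ z ∈ κ, Real.pi / 2 < z.im ∧ 0 < z.re) : ∃ z ∈ κ, z + (l : ℂ) ∈ κ :=
  strip_link_of
    (fun hA hAc hB hBc _ _ ha hb hAb hBa h1 h2 h3 h4 =>
      cross_continua hA hAc hB hBc ha hb hAb hBa h1 h2 h3 h4)
    (fun hX _ _ hP hQ => cut hX hP hQ) hc hp hl hM h1 h2 h3 h4

end Pool.Agent.H90.WC
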