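import Pool.Agent.H13.WC.Cut

/-!
Planar subcontinua of a continuum on the sphere (for the wandering continuum theorem, problem
MP_90715c_gt).
-/

open Matrix Set Filter Topology

namespace Pool.Agent.H90.WC

theorem exists_subcontinuum {K : Set (OnePoint ℂ)} (hK : IsCompact K) (hc : IsConnected K)
    (hn : K.Nontrivial) : ∃ A : Set ℂ, IsCompact A ∧ IsPreconnected A ∧ A.Nontrivial ∧
      ∀ z ∈ A, (z : OnePoint ℂ) ∈ K := by
  have hemb : IsOpenEmbedding ((↑) : ℂ → OnePoint ℂ) := OnePoint.isOpenEmbedding_coe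
  -- a finite point and another point
  obtain ⟨x, hx, y, hy, hxy⟩ := hn
  obtain ⟨z0, hz0, w, hw, hwz⟩ : ∃ z0 : ℂ, (z0 : OnePoint ℂ) ∈ K ∧ ∃ w ∈ K,
      w ≠ (z0 : OnePoint ℂ) := by
    induction x using OnePoint.rec with
    | infty =>
      induction y using OnePoint.rec with
      | infty => exact absurd rfl hxy
      | coe y => exact ⟨y, hy, _, hx, hxy⟩
    | coe x => exact ⟨x, hx, y, hy, fun h => hxy h.symm⟩
  -- a radius
  obtain ⟨r, hr, hwr⟩ : ∃ r > (0 : ℝ), w ∉ ((↑) : ℂ → OnePoint ℂ) '' Metric.ball z0 r := by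
    induction w using OnePoint.rec with
    | infty => exact ⟨1, one_pos, by rintro ⟨v, -, hv⟩; exact OnePoint.coe_ne_infty v hv⟩
    | coe w =>
      refine ⟨dist w z0, dist_pos.mpr fun h => hwz (by rw [h]), ?_⟩
      rintro ⟨v, hv, hv'⟩
      rw [OnePoint.coe_injective hv', Metric.mem_ball] at hv
      exact lt_irrefl _ hv
  have hW : IsClosed (((↑) : ℂ → OnePoint ℂ) '' Metric.closedBall z0 r) :=
    ((isCompact_closedBall z0 r).image OnePoint.continuous_coe).isClosed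
  have hQ : IsClosed ((((↑) : ℂ → OnePoint ℂ) '' Metric.ball z0 r)ᶜ) :=
    (hemb.isOpenMap _ Metric.isOpen_ball).isClosed_compl
  have hcov : K ⊆ (((↑) : ℂ → OnePoint ℂ) '' Metric.closedBall z0 r) ∪
      ({(z0 : OnePoint ℂ)} ∪ (((↑) : ℂ → OnePoint ℂ) '' Metric.ball z0 r)ᶜ) := by
    intro z _
    by_cases h : z ∈ ((↑) : ℂ → OnePoint ℂ) '' Metric.ball z0 r
    · exact Or.inl (image_mono Metric.ball_subset_closedBall h)
    · exact Or.inr (Or.inr h)
  have hdis : ∀ z ∈ K, z ∈ ({(z0 : OnePoint ℂ)} : Set (OnePoint ℂ)) →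
      z ∉ (((↑) : ℂ → OnePoint ℂ) '' Metric.ball z0 r)ᶜ := by
    intro z _ hz hz'
    exact hz' ⟨z0, Metric.mem_ball_self hr, hz.symm⟩
  obtain ⟨κ, hsub, h1, h2, ⟨u, hu, hu'⟩, ⟨v, hv, hv'⟩⟩ := bumping hK hc.isPreconnected hW
    isClosed_singleton hQ hcov hdis ⟨_, hz0, rfl⟩ ⟨w, hw, hwr⟩
  have hκr : κ ⊆ range ((↑) : ℂ → OnePoint ℂ) := fun z hz => by
    obtain ⟨t, -, ht⟩ := (hsub hz).2
    exact ⟨t, ht⟩
  have himg : ((↑) : ℂ → OnePoint ℂ) '' (((↑) : ℂ → OnePoint ℂ) ⁻¹' κ) = κ :=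
    image_preimage_eq_of_subset hκr
  refine ⟨((↑) : ℂ → OnePoint ℂ) ⁻¹' κ, ?_, ?_, ?_, fun z hz => (hsub hz).1⟩
  · rw [hemb.isInducing.isCompact_iff, himg]
    exact h1
  · rw [← hemb.isInducing.isPreconnected_image, himg]
    exact h2
  · obtain ⟨v', hv''⟩ := hκr hv
    have hu0 : u = (z0 : OnePoint ℂ) := hu'
    refine ⟨z0, by rw [mem_preimage, ← hu0]; exact hu, v', by rw [mem_preimage, hv'']; exact hv,
      ?_⟩
    rintro rfl
    exact hv' ⟨z0, Metric.mem_ball_self hr, hv''⟩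

end Pool.Agent.H90.WC
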