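import Pool.Agent.H90.WC.Zset
import Pool.Agent.H13.WC.StripLinkC

/-!
A thin translate on one side of a circle is incompatible with a hyperbolic element (module F3 of
the wandering continuum theorem, problem MP_90715c_gt).
-/

open Matrix Set Filter Topology

namespace Pool.Agent.H90.WC

lemma continuousOn_log_upper : ContinuousOn Complex.log {z : ℂ | 0 ≤ z.im ∧ z ≠ 0} := by
  intro z hz
  by_cases hs : z ∈ Complex.slitPlane
  · exact (continuousAt_clog hs).continuousWithinAt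
  · rw [Complex.mem_slitPlane_iff, not_or, not_lt, not_not] at hs
    have hre : z.re < 0 := lt_of_le_of_ne hs.1 fun h0 => hz.2 (Complex.ext h0 hs.2)
    exact (Complex.continuousWithinAt_log_of_re_neg_of_im_zero hre hs.2).mono fun y hy => hy.1

/-- The core of the argument, in normalised coordinates. -/
theorem ring_link {κ : Set ℂ} (hc : IsCompact κ) (hp : IsPreconnected κ) {l : ℝ} (hl : 1 < l)
    (hi : ∀ z ∈ κ, |z.im| ≤ 1 / (4 * (Real.exp 1 * l))) (hneg : ∀ z ∈ κ, z.im ≤ 0)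
    (hL : ∃ z ∈ κ, z.re ≤ -2) (hR : ∃ z ∈ κ, 2 ≤ z.re) (h0 : ∀ z ∈ κ, z ≠ 0)
    (h1 : ∀ z ∈ κ, z ≠ 1) :
    ∃ z ∈ κ, ∃ z' ∈ κ, -1 + z'⁻¹ = (l : ℂ) * (-1 + z⁻¹) := by
  have hl0 : 0 < l := by linarith
  set E : ℝ := Real.exp 1 * l with hE
  have hexp1 : 1 < Real.exp 1 := Real.one_lt_exp_iff.mpr one_pos
  have hE1 : 1 < E := by nlinarith
  have hlogE : Real.log E = Real.log l + 1 := by
    rw [hE, Real.log_mul (Real.exp_pos 1).ne' hl0.ne', Real.log_exp]; ring
  set v : ℂ → ℂ := fun z => -1 + z⁻¹ with hv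
  have hnsq : ∀ z ∈ κ, 0 < Complex.normSq z := fun z hz => Complex.normSq_pos.mpr (h0 z hz)
  have hvre : ∀ z, (v z).re = -1 + z.re / Complex.normSq z := by
    intro z; simp [hv, Complex.inv_re]
  have hvim : ∀ z, (v z).im = -z.im / Complex.normSq z := by
    intro z; simp [hv, Complex.inv_im]
  have hvim0 : ∀ z ∈ κ, 0 ≤ (v z).im := by
    intro z hz
    rw [hvim]
    exact div_nonneg (by linarith [hneg z hz]) (hnsq z hz).le
  have hv0 : ∀ z ∈ κ, v z ≠ 0 := by
    intro z hz h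
    apply h1 z hz
    have : z⁻¹ = 1 := by
      have h' : -1 + z⁻¹ = 0 := h
      linear_combination h'
    rw [← inv_inv z, this, inv_one]
  have hcont : ContinuousOn (fun z => Complex.log (v z)) κ := by
    refine continuousOn_log_upper.comp ?_ fun z hz => ⟨hvim0 z hz, hv0 z hz⟩
    exact continuousOn_const.add (continuousOn_id.inv₀ h0)
  -- `z` in terms of `v z`
  have hz1 : ∀ z ∈ κ, (1 + v z).re * z.im = -(1 + v z).im * z.re ∧
      (1 + v z).re * z.re - (1 + v z).im * z.im = 1 := by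
    intro z hz
    have e : (1 + v z) * z = 1 := by
      simp only [hv]
      rw [show (1 : ℂ) + (-1 + z⁻¹) = z⁻¹ by ring, inv_mul_cancel₀ (h0 z hz)]
    have er := congrArg Complex.re e
    have ei := congrArg Complex.im e
    rw [Complex.mul_re, Complex.one_re] at er
    rw [Complex.mul_im, Complex.one_im] at ei
    exact ⟨by linarith, er⟩
  have hzim : ∀ z ∈ κ, -z.im * ((1 + (v z).re) ^ 2 + (v z).im ^ 2) = (v z).im := by
    intro z hz
    obtain ⟨e1, e2⟩ := hz1 z hz
    simp only [Complex.add_re, Complex.add_im, Complex.one_re, Complex.one_im, zero_add] at e1 e2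
    have e3 := congrArg (fun t => t * (1 + (v z).re)) e1
    have e4 := congrArg (fun t => t * (v z).im) e2
    linear_combination -e3 + e4
  have hsmall : ∀ z ∈ κ, (v z).im * (4 * E) ≤ (1 + (v z).re) ^ 2 + (v z).im ^ 2 := by
    intro z hz
    have hE4 : 0 < 4 * E := by linarith
    have a1 := hi z hz
    rw [abs_of_nonpos (hneg z hz), le_div_iff₀ hE4] at a1
    have a2 := hzim z hz
    have a3 : 0 ≤ (1 + (v z).re) ^ 2 + (v z).im ^ 2 := by positivity
    calc (v z).im * (4 * E) = (-z.im * (4 * E)) * ((1 + (v z).re) ^ 2 + (v z).im ^ 2) := by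
          linear_combination (-4 * E) * a2
      _ ≤ 1 * ((1 + (v z).re) ^ 2 + (v z).im ^ 2) := by gcongr
      _ = _ := one_mul _
  have hv1 : ∀ z ∈ κ, (1 + (v z).re) ^ 2 + (v z).im ^ 2 ≠ 0 := by
    intro z hz h
    obtain ⟨e1, e2⟩ := hz1 z hz
    have b1 : 1 + (v z).re = 0 := by nlinarith [sq_nonneg (1 + (v z).re), sq_nonneg (v z).im]
    have b2 : (v z).im = 0 := by nlinarith [sq_nonneg (1 + (v z).re), sq_nonneg (v z).im]
    simp only [Complex.add_re, Complex.add_im, Complex.one_re, Complex.one_im, zero_add, b1,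
      b2] at e2
    linarith
  have harg0 : ∀ z ∈ κ, 0 ≤ (v z).arg := fun z hz => Complex.arg_nonneg_iff.mpr (hvim0 z hz)
  have hargneg : ∀ z ∈ κ, (v z).re < 0 → Real.pi / 2 < (v z).arg := by
    intro z hz h
    by_contra hcon
    have : |(v z).arg| ≤ Real.pi / 2 := by
      rw [abs_of_nonneg (harg0 z hz)]; exact not_lt.mp hcon
    rw [Complex.abs_arg_le_pi_div_two_iff] at this
    linarith
  have hnormsq : ∀ z, ‖v z‖ ^ 2 = (v z).re ^ 2 + (v z).im ^ 2 := by
    intro z
    rw [← Complex.normSq_eq_norm_sq, Complex.normSq_apply]; ring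
  obtain ⟨ζ, ⟨z, hz, rfl⟩, ⟨z', hz', hzz'⟩⟩ := strip_link (κ := (fun z => Complex.log (v z)) '' κ)
    (M := Real.log l + 1) (l := Real.log l) (hc.image_of_continuousOn hcont)
    (hp.image _ hcont) (Real.log_pos hl) (by linarith)
    (by
      rintro _ ⟨z, hz, rfl⟩ hre him
      simp only [Complex.log_re, Complex.log_im] at hre him
      rw [Complex.arg_eq_pi_div_two_iff] at him
      obtain ⟨b1, b2⟩ := him
      have b3 : ‖v z‖ = (v z).im := by
        have := hnormsq z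
        rw [b1] at this
        have h2 : ‖v z‖ ^ 2 = (v z).im ^ 2 := by rw [this]; ring
        exact (sq_eq_sq₀ (norm_nonneg _) b2.le).mp h2
      rw [b3, ← hlogE, abs_le, ← Real.log_inv] at hre
      have c1 : (v z).im ≤ E := (Real.log_le_log_iff b2 (by linarith)).mp hre.2
      have c2 : E⁻¹ ≤ (v z).im := (Real.log_le_log_iff (by positivity) b2).mp hre.1
      have c3 : 1 ≤ (v z).im * E := by
        rw [inv_le_iff_one_le_mul₀ (by linarith)] at c2
        linarith
      have c4 := hsmall z hz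
      rw [b1] at c4
      nlinarith)
    (by
      rintro _ ⟨z, hz, rfl⟩ hre
      simp only [Complex.log_re, Complex.log_im] at hre ⊢
      by_contra hcon
      rw [not_lt] at hcon
      have hn1 : ‖v z‖ = 1 := by
        have hpos : 0 < ‖v z‖ := norm_pos_iff.mpr (hv0 z hz)
        rw [← Real.exp_log hpos, hre, Real.exp_zero]
      have hr0 : (v z).re ≤ 0 := by
        by_contra hpos
        have : |(v z).arg| < Real.pi / 2 :=
          Complex.abs_arg_lt_pi_div_two_iff.mpr (Or.inl (not_le.mp hpos))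
        have := le_abs_self (v z).arg
        linarith
      have e1 := hnormsq z
      rw [hn1] at e1
      have e2 := hsmall z hz
      have e3 := hv1 z hz
      have e4 := hvim0 z hz
      set r := (v z).re
      set t := (v z).im
      have e5 : (1 + r) ^ 2 + t ^ 2 = 2 * (1 + r) := by nlinarith
      rw [e5] at e2 e3
      have e6 : 0 < 1 + r := by
        rcases lt_trichotomy (1 + r) 0 with h | h | h
        · nlinarith
        · exact absurd (by rw [h, mul_zero]) e3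
        · exact h
      have e7 : (1 + r) ^ 2 ≤ t ^ 2 := by nlinarith
      have e8 : 1 + r ≤ t := by
        exact (sq_le_sq₀ e6.le e4).mp e7
      nlinarith)
    (by
      obtain ⟨z, hz, hz2⟩ := hR
      have n0 := hnsq z hz
      have n1 : Complex.normSq z = z.re ^ 2 + z.im ^ 2 := by rw [Complex.normSq_apply]; ring
      have n2 : 2 * z.re ≤ Complex.normSq z := by rw [n1]; nlinarith [sq_nonneg z.im]
      have r1 : (v z).re < 0 := by
        rw [hvre]
        have : z.re / Complex.normSq z ≤ 1 / 2 := by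
          rw [div_le_div_iff₀ n0 two_pos]; linarith
        linarith
      refine ⟨_, ⟨z, hz, rfl⟩, ?_, ?_⟩
      · simp only [Complex.log_im]
        exact hargneg z hz r1
      · simp only [Complex.log_re]
        refine Real.log_neg (norm_pos_iff.mpr (hv0 z hz)) ?_
        have e1 := hnormsq z
        rw [hvre, hvim] at e1
        have e2 : ‖v z‖ ^ 2 = 1 + (1 - 2 * z.re) / Complex.normSq z := by
          rw [e1]
          field_simp
          rw [n1]; ring
        have e3 : (1 - 2 * z.re) / Complex.normSq z < 0 := div_neg_of_neg_of_pos (by linarith) n0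
        have e4 : ‖v z‖ ^ 2 < 1 := by rw [e2]; linarith
        exact (sq_lt_one_iff₀ (norm_nonneg _)).mp e4)
    (by
      obtain ⟨z, hz, hz2⟩ := hL
      have n0 := hnsq z hz
      have n1 : Complex.normSq z = z.re ^ 2 + z.im ^ 2 := by rw [Complex.normSq_apply]; ring
      have r1 : (v z).re < 0 := by
        rw [hvre]
        have : z.re / Complex.normSq z < 0 := div_neg_of_neg_of_pos (by linarith) n0
        linarith
      refine ⟨_, ⟨z, hz, rfl⟩, ?_, ?_⟩
      · simp only [Complex.log_im]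
        exact hargneg z hz r1
      · simp only [Complex.log_re]
        refine Real.log_pos ?_
        have e1 := hnormsq z
        rw [hvre, hvim] at e1
        have e2 : ‖v z‖ ^ 2 = 1 + (1 - 2 * z.re) / Complex.normSq z := by
          rw [e1]
          field_simp
          rw [n1]; ring
        have e3 : 0 < (1 - 2 * z.re) / Complex.normSq z := div_pos (by linarith) n0
        have e4 : 1 < ‖v z‖ ^ 2 := by rw [e2]; linarith
        exact (one_lt_sq_iff₀ (norm_nonneg _)).mp e4)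
  refine ⟨z, hz, z', hz', ?_⟩
  have e := congrArg Complex.exp hzz'
  simp only at e
  rw [Complex.exp_add, Complex.exp_log (hv0 z' hz'), Complex.exp_log (hv0 z hz),
    ← Complex.ofReal_exp, Real.exp_log hl0] at e
  have e' : -1 + z'⁻¹ = (-1 + z⁻¹) * (l : ℂ) := e
  rw [e']; ring

/-- The same for a continuum on either side of the real line. -/
theorem ring_link' {κ : Set ℂ} (hc : IsCompact κ) (hp : IsPreconnected κ) {l : ℝ} (hl : 1 < l)
    (hi : ∀ z ∈ κ, |z.im| ≤ 1 / (4 * (Real.exp 1 * l)))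
    (hside : (∀ z ∈ κ, z.im ≤ 0) ∨ ∀ z ∈ κ, 0 ≤ z.im)
    (hL : ∃ z ∈ κ, z.re ≤ -2) (hR : ∃ z ∈ κ, 2 ≤ z.re) (h0 : ∀ z ∈ κ, z ≠ 0)
    (h1 : ∀ z ∈ κ, z ≠ 1) :
    ∃ z ∈ κ, ∃ z' ∈ κ, -1 + z'⁻¹ = (l : ℂ) * (-1 + z⁻¹) := by
  rcases hside with hneg | hpos
  · exact ring_link hc hp hl hi hneg hL hR h0 h1
  · have hcc : Continuous (fun z : ℂ => (starRingEnd ℂ) z) := Complex.continuous_conj
    obtain ⟨_, ⟨z, hz, rfl⟩, _, ⟨z', hz', rfl⟩, e⟩ :=
      ring_link (κ := (fun z : ℂ => (starRingEnd ℂ) z) '' κ) (hc.image hcc)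
        (hp.image _ hcc.continuousOn) hl
        (by
          rintro _ ⟨z, hz, rfl⟩
          simp only [Complex.conj_im, abs_neg]
          exact hi z hz)
        (by
          rintro _ ⟨z, hz, rfl⟩
          simp only [Complex.conj_im]
          linarith [hpos z hz])
        (by
          obtain ⟨z, hz, hz2⟩ := hL
          exact ⟨_, ⟨z, hz, rfl⟩, by simpa only [Complex.conj_re] using hz2⟩)
        (by
          obtain ⟨z, hz, hz2⟩ := hR
          exact ⟨_, ⟨z, hz, rfl⟩, by simpa only [Complex.conj_re] using hz2⟩)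
        (by
          rintro _ ⟨z, hz, rfl⟩ h
          exact h0 z hz ((map_eq_zero (starRingEnd ℂ)).mp h))
        (by
          rintro _ ⟨z, hz, rfl⟩ h
          apply h1 z hz
          have := congrArg (starRingEnd ℂ) h
          simpa using this)
    refine ⟨z, hz, z', hz', ?_⟩
    have := congrArg (starRingEnd ℂ) e
    simpa using this

variable {Γ : Subgroup G} {K : Set (OnePoint ℂ)}

/-- A translate of `K` does not contain two points which correspond under a nontrivial element of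
the group. -/
lemma no_mult (h : Hyp Γ K) {q g : G} {l : ℝ} (hg : g ∈ Γ) (hl : 1 < l)
    (h00 : ((q⁻¹ * g * q) 0 0) ^ 2 = (l : ℂ)) {γ : G} (hγ : γ ∈ Γ)
    {x : OnePoint ℂ} (hx : act (γ⁻¹ * q) x ∈ K)
    (hx' : act (γ⁻¹ * q) (act (q⁻¹ * g * q) x) ∈ K) : False := by
  have hl1 : ((q⁻¹ * g * q) 0 0) ^ 2 ≠ 1 := by
    rw [h00]
    exact_mod_cast hl.ne'
  have hconj : ∀ t : G, γ⁻¹ * g * γ = t → γ * t * γ⁻¹ = g := by
    rintro t rfl
    group
  refine h.wand (γ⁻¹ * g * γ) (Γ.mul_mem (Γ.mul_mem (Γ.inv_mem hγ) hg) hγ) ?_ ?_ _ hx ?_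
  · intro e
    have e1 := hconj _ e
    rw [mul_one, mul_inv_cancel] at e1
    apply hl1
    rw [← e1, mul_one, inv_mul_cancel]
    simp
  · intro e
    have e1 := hconj _ e
    have e2 : γ * (-1) * γ⁻¹ = (-1 : G) := by simp
    rw [e2] at e1
    apply hl1
    rw [← e1]
    have e3 : q⁻¹ * (-1) * q = (-1 : G) := by simp
    rw [e3]
    simp
  · rw [← act_mul] at hx' ⊢
    have e : γ⁻¹ * g * γ * (γ⁻¹ * q) = γ⁻¹ * q * (q⁻¹ * g * q) := by group
    rw [e]
    exact hx'

theorem thin_contra (h : Hyp Γ K) {q s g : G} {l : ℝ} (hg : g ∈ Γ) (hl : 1 < l)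
    (h10 : (q⁻¹ * g * q) 1 0 = 0) (h01 : (q⁻¹ * g * q) 0 1 = 0)
    (h00 : ((q⁻¹ * g * q) 0 0) ^ 2 = (l : ℂ)) (hs : IsReal s) (hqs : q * s ∈ Z Γ K)
    (hs0 : s 0 0 ≠ 0) (hs1 : s 1 0 ≠ 0)
    (hone : ∀ γ ∈ Γ, ¬ ((∃ u : ℂ, 0 < u.im ∧ act (γ⁻¹ * q) (u : OnePoint ℂ) ∈ K) ∧
      ∃ v : ℂ, v.im < 0 ∧ act (γ⁻¹ * q) (v : OnePoint ℂ) ∈ K)) : False := by
  set m : G := q⁻¹ * g * q with hm
  -- the action of `m`
  have hm11 : m 0 0 * m 1 1 = 1 := by
    have := det_eq m
    rw [h01, h10, mul_zero, sub_zero] at this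
    exact this
  have hm0 : m 0 0 ≠ 0 := left_ne_zero_of_mul_eq_one hm11
  have hm1 : m 1 1 ≠ 0 := right_ne_zero_of_mul_eq_one hm11
  have hmact : ∀ z : ℂ, act m (z : OnePoint ℂ) = (((l : ℂ) * z : ℂ) : OnePoint ℂ) := by
    intro z
    rw [act_coe_of_ne (by rw [h10, zero_mul, zero_add]; exact hm1)]
    congr 1
    unfold mob
    rw [h10, h01, zero_mul, zero_add, add_zero, ← h00, div_eq_iff hm1]
    linear_combination (-m 0 0 * z) * hm11
  have hminf : act m OnePoint.infty = OnePoint.infty := by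
    rw [act_infty, if_pos h10]
  -- the entries of `s`
  obtain ⟨a, ha⟩ : ∃ a : ℝ, s 0 0 = (a : ℂ) := ⟨(s 0 0).re, Complex.ext rfl (hs 0 0)⟩
  obtain ⟨b, hb⟩ : ∃ b : ℝ, s 0 1 = (b : ℂ) := ⟨(s 0 1).re, Complex.ext rfl (hs 0 1)⟩
  obtain ⟨c, hc⟩ : ∃ c : ℝ, s 1 0 = (c : ℂ) := ⟨(s 1 0).re, Complex.ext rfl (hs 1 0)⟩
  obtain ⟨d, hd⟩ : ∃ d : ℝ, s 1 1 = (d : ℂ) := ⟨(s 1 1).re, Complex.ext rfl (hs 1 1)⟩
  have hdet : a * d - b * c = 1 := by
    have := det_eq s
    rw [ha, hb, hc, hd] at this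
    exact_mod_cast this
  have ha0 : a ≠ 0 := by
    intro h0
    exact hs0 (by rw [ha, h0, Complex.ofReal_zero])
  have hc0 : c ≠ 0 := by
    intro h0
    exact hs1 (by rw [hc, h0, Complex.ofReal_zero])
  have hac : 0 < |a * c| := abs_pos.mpr (mul_ne_zero ha0 hc0)
  have hE : 0 < 1 / (4 * (Real.exp 1 * l)) := by
    have : 0 < Real.exp 1 := Real.exp_pos 1
    positivity
  obtain ⟨γ, hγ, -, κ, hκ, hκK⟩ := hqs ((|a * d| + 2) / |a * c|) (by positivity)
    (1 / (4 * (Real.exp 1 * l)) / |a * c|) (by positivity) ∅ finite_empty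
  have hmem : ∀ w ∈ κ, act (γ⁻¹ * q) (act s (w : OnePoint ℂ)) ∈ K := by
    intro w hw
    rw [← act_mul, mul_assoc]
    exact hκK w hw
  have hden : ∀ w ∈ κ, (c : ℂ) * w + d ≠ 0 := by
    intro w hw h0
    have h1 := hmem w hw
    rw [act_coe_of_eq (by rw [hc, hd]; exact h0)] at h1
    exact no_mult h hg hl h00 hγ h1 (by rw [← hm, hminf]; exact h1)
  have hact : ∀ w ∈ κ, act s (w : OnePoint ℂ) =
      ((((a : ℂ) * w + b) / (c * w + d) : ℂ) : OnePoint ℂ) := by
    intro w hw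
    rw [act_coe_of_ne (by rw [hc, hd]; exact hden w hw)]
    unfold mob
    rw [ha, hb, hc, hd]
  have hnum : ∀ w ∈ κ, (a : ℂ) * w + b ≠ 0 := by
    intro w hw h0
    have h1 := hmem w hw
    rw [hact w hw, h0, zero_div] at h1
    exact no_mult h hg hl h00 hγ h1 (by rw [← hm, hmact, mul_zero]; exact h1)
  -- the normalised coordinate
  have haC : (a : ℂ) ≠ 0 := by exact_mod_cast ha0
  have hcC : (c : ℂ) ≠ 0 := by exact_mod_cast hc0
  have hdetC : (a : ℂ) * d - b * c = 1 := by exact_mod_cast hdet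
  set φ : ℂ → ℂ := fun w => (a : ℂ) * (c * w + d) with hφ
  have hφc : Continuous φ := by rw [hφ]; fun_prop
  have hφre : ∀ w, (φ w).re = a * c * w.re + a * d := by
    intro w
    simp [hφ]; ring
  have hφim : ∀ w, (φ w).im = a * c * w.im := by
    intro w
    simp [hφ]; ring
  have hφ0 : ∀ w ∈ κ, φ w ≠ 0 := fun w hw => mul_ne_zero haC (hden w hw)
  have hφv : ∀ w ∈ κ, ((a : ℂ) * w + b) / (c * w + d) = -(a / c) * (-1 + (φ w)⁻¹) := by
    intro w hw
    have h1 := hden w hw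
    have h2 : (a : ℂ) * w + b = (a * (c * w + d) - 1) / c := by
      rw [eq_div_iff hcC]
      linear_combination (-1 : ℂ) * hdetC
    rw [h2]
    simp only [hφ]
    generalize (c : ℂ) * w + d = D at h1 ⊢
    field_simp
    ring
  have hφ1 : ∀ w ∈ κ, φ w ≠ 1 := by
    intro w hw h1
    have h2 := hφv w hw
    rw [h1, inv_one, neg_add_cancel, mul_zero, div_eq_zero_iff] at h2
    rcases h2 with h2 | h2
    · exact hnum w hw h2
    · exact hden w hw h2
  -- the side
  have hvim : ∀ w ∈ κ, (((a : ℂ) * w + b) / (c * w + d)).im =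
      a / c * ((φ w).im / Complex.normSq (φ w)) := by
    intro w hw
    rw [hφv w hw]
    have e : -((a : ℂ) / c) = ((-(a / c) : ℝ) : ℂ) := by push_cast; ring
    rw [e, Complex.im_ofReal_mul]
    simp only [Complex.add_im, Complex.neg_im, Complex.one_im, neg_zero, zero_add, Complex.inv_im]
    ring
  have hnsq : ∀ w ∈ κ, 0 < Complex.normSq (φ w) := fun w hw => Complex.normSq_pos.mpr (hφ0 w hw)
  have hside : (∀ z ∈ φ '' κ, z.im ≤ 0) ∨ ∀ z ∈ φ '' κ, 0 ≤ z.im := by
    by_contra hcon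
    rw [not_or] at hcon
    obtain ⟨hc1, hc2⟩ := hcon
    push Not at hc1 hc2
    obtain ⟨_, ⟨w1, hw1, rfl⟩, p1⟩ := hc1
    obtain ⟨_, ⟨w2, hw2, rfl⟩, p2⟩ := hc2
    have q1 := div_pos p1 (hnsq w1 hw1)
    have q2 := div_neg_of_neg_of_pos p2 (hnsq w2 hw2)
    have k1 := hmem w1 hw1
    have k2 := hmem w2 hw2
    rw [hact w1 hw1] at k1
    rw [hact w2 hw2] at k2
    apply hone γ hγ
    rcases lt_or_gt_of_ne (div_ne_zero ha0 hc0) with hac' | hac'
    · exact ⟨⟨_, by rw [hvim w2 hw2]; exact mul_pos_of_neg_of_neg hac' q2, k2⟩,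
        ⟨_, by rw [hvim w1 hw1]; exact mul_neg_of_neg_of_pos hac' q1, k1⟩⟩
    · exact ⟨⟨_, by rw [hvim w1 hw1]; exact mul_pos hac' q1, k1⟩,
        ⟨_, by rw [hvim w2 hw2]; exact mul_neg_of_pos_of_neg hac' q2, k2⟩⟩
  have hends : ∀ w ∈ κ, |w.re| = (|a * d| + 2) / |a * c| →
      |a * c * w.re| = |a * d| + 2 := by
    intro w _ hw
    rw [abs_mul, hw, mul_div_cancel₀ _ hac.ne']
  obtain ⟨x1, hx1, hx1'⟩ := hκ.left
  obtain ⟨x2, hx2, hx2'⟩ := hκ.right
  have hT0 : 0 ≤ (|a * d| + 2) / |a * c| := by positivity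
  have hadabs := abs_le.mp (le_refl |a * d|)
  obtain ⟨z, ⟨w, hw, rfl⟩, z', ⟨w', hw', rfl⟩, e⟩ := ring_link' (κ := φ '' κ)
    (hκ.cpt.image hφc) (hκ.conn.image _ hφc.continuousOn) hl
    (by
      rintro _ ⟨w, hw, rfl⟩
      rw [hφim, abs_mul]
      have := hκ.im_le w hw
      rw [le_div_iff₀ hac] at this
      linarith)
    hside
    (by
      rcases lt_or_gt_of_ne (mul_ne_zero ha0 hc0) with hn | hn
      · refine ⟨_, ⟨x2, hx2, rfl⟩, ?_⟩
        have e := hends x2 hx2 (by rw [hx2', abs_of_nonneg hT0])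
        rw [hφre]
        rw [abs_of_nonpos (mul_nonpos_of_nonpos_of_nonneg hn.le (by rw [hx2']; exact hT0))] at e
        linarith [hadabs.2]
      · refine ⟨_, ⟨x1, hx1, rfl⟩, ?_⟩
        have e := hends x1 hx1 (by rw [hx1', abs_neg, abs_of_nonneg hT0])
        rw [hφre]
        rw [abs_of_nonpos (mul_nonpos_of_nonneg_of_nonpos hn.le (by rw [hx1']; linarith))] at e
        linarith [hadabs.2])
    (by
      rcases lt_or_gt_of_ne (mul_ne_zero ha0 hc0) with hn | hn
      · refine ⟨_, ⟨x1, hx1, rfl⟩, ?_⟩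
        have e := hends x1 hx1 (by rw [hx1', abs_neg, abs_of_nonneg hT0])
        rw [hφre]
        rw [abs_of_nonneg (mul_nonneg_of_nonpos_of_nonpos hn.le (by rw [hx1']; linarith))] at e
        linarith [hadabs.1]
      · refine ⟨_, ⟨x2, hx2, rfl⟩, ?_⟩
        have e := hends x2 hx2 (by rw [hx2', abs_of_nonneg hT0])
        rw [hφre]
        rw [abs_of_nonneg (mul_nonneg hn.le (by rw [hx2']; exact hT0))] at e
        linarith [hadabs.1])
    (by rintro _ ⟨w, hw, rfl⟩; exact hφ0 w hw)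
    (by rintro _ ⟨w, hw, rfl⟩; exact hφ1 w hw)
  have k1 := hmem w hw
  have k2 := hmem w' hw'
  rw [hact w hw] at k1
  rw [hact w' hw', hφv w' hw', e] at k2
  refine no_mult h hg hl h00 hγ k1 ?_
  rw [← hm, hmact, hφv w hw]
  have e2 : (l : ℂ) * (-((a : ℂ) / c) * (-1 + (φ w)⁻¹)) =
      -((a : ℂ) / c) * ((l : ℂ) * (-1 + (φ w)⁻¹)) := by ring
  rw [e2]
  exact k2

end Pool.Agent.H90.WC
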